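import Pool.Agent.Q5.BP.Pack
import Pool.Agent.Results.MP_1a91b9_nt.MeanSquareLeading

/-!
# The strong conjecture of Birch and Swinnerton-Dyer in exact mean square, over number fields

Let `K` be a number field, `E : y² = x³ + a x + b` an elliptic curve with `a, b ∈ 𝓞_K`, and let `F` be a
continuation of the `L`-series of `E/K` (product over the primes `v ∤ 6Δ`) to a half plane `Re s > 1 - η`, analytic
except perhaps for a pole at `s = 1`, of polynomial growth. Let `P(y) = ∏_{Nv ≤ y} #E(k_v)/Nv` be the original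
product of Birch and Swinnerton-Dyer, `P*(y)` the product with the prime powers, both with the SHARP cut-off, and
for real `ρ` and `A > 0` let

`δ*(y) = log (A P*(y) / (e^γ log y)^ρ)`,  `δ(y) = log (A e^c P(y) / (e^γ log y)^ρ)`.

Write `m_t` for the order of vanishing of `F` at `1 + it`. Then the following are equivalent:

* `ρ` is an integer, `F(s)/(s - 1)^ρ → A` for `s → 1`, and `F` has no zeros with `Re s > 1`;
* `(log Y)⁻¹ ∫_e^Y (log y · δ*(y))² dy/y` is bounded for large `Y`;
* the sum `V = ∑_{t ≠ 0} m_t²/t²` converges and `(log Y)⁻¹ ∫_e^Y (log y · δ*(y))² dy/y → V`.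

So the error term in the formula of Birch and Swinnerton-Dyer is of the exact order `1/log y` in square mean, with
the constant given by the zeros on the critical line with their multiplicities, and any bound of this kind already
implies the formula and the Riemann hypothesis. Moreover, in this case for EVERY real `t`

`(log Y)⁻¹ ∫_e^Y (log y · δ*(y)) y^(-it) dy/y → - i m_t / t`

(`0` for `t = 0`): the zeros and their multiplicities are the frequencies and the coefficients of the error term.
The same holds for `δ` (the product of the numbers of points) if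
`log y · (∑_{√y < Nv ≤ y} (a_v² - 2 Nv)/(2 Nv²) - c) → 0`, which for automorphic `E/K` is the prime number
theorem for the symmetric square, with a zero-free region.

The proof (`Pool.Agent.Q5.BP`): if `F` has no zeros with `Re s > 1`, then `log F` is a Laplace transform of a
square integrable function `h` (`Pool.Agent.TH270.MS`); the derivative of the transform of `h` minus the principal parts
at the zeros with `|t| < R` is square integrable on the lines `Re s = 1 + x`, with integrals bounded for
`x → 0` by `o(1)/x` for `R → ∞` (uniform local estimates by the Borel-Caratheodory theorem and canonical products);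
by Plancherel's theorem `u h(u)` is approximated in square mean by trigonometric polynomials.
-/

set_option autoImplicit false

namespace Pool.Agent.Results.MP_9ab903_nt.ExactMeanSquare

open Filter Topology Set Complex NumberField IsDedekindDomain MeasureTheory
open Pool.Agent.Results.MP_ae0bd0_nt.MeanProduct (Good norm points trace factor upTo product powerSum
  productStar Tempered)
open Pool.Agent.Results.MP_1a91b9_nt.MeanSquareLeading (LeadingRH devStar dev squares)

variable {K : Type} [Field K] [NumberField K]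

/-- The order of vanishing of `F` at `1 + it`. -/
noncomputable def mult (F : ℂ → ℂ) (t : ℝ) : ℕ := (analyticOrderAt F (1 + t * I)).toNat

/-- `(log Y)⁻¹ ∫_e^Y (log y · δ(y))² dy/y`. -/
noncomputable def meanSquare (δ : ℝ → ℝ) (Y : ℝ) : ℝ :=
  (∫ y in Real.exp 1..Y, (Real.log y * δ y) ^ 2 / y) / Real.log Y

/-- `(log Y)⁻¹ ∫_e^Y (log y · δ(y)) y^(-it) dy/y`. -/
noncomputable def coefficient (δ : ℝ → ℝ) (t Y : ℝ) : ℂ :=
  (∫ y in Real.exp 1..Y, ((Real.log y * δ y : ℝ) : ℂ) * (y : ℂ) ^ (-(t * I)) / (y : ℂ)) /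
    (Real.log Y : ℂ)

/-- `∫_e^Y (log y · δ(y))² dy/y ≤ B log Y` for some `B` and all large `Y`. -/
def BoundedMeanSquare (δ : ℝ → ℝ) : Prop := ∃ B : ℝ, ∀ᶠ Y : ℝ in atTop,
  ∫ y in Real.exp 1..Y, (Real.log y * δ y) ^ 2 / y ≤ B * Real.log Y

/-- `∑_t m_t²/t²` converges (the term with `t = 0` is `0`) and is the limit of the mean squares. -/
def SquareLaw (F : ℂ → ℂ) (δ : ℝ → ℝ) : Prop :=
  ∃ V : ℝ, HasSum (fun t : ℝ => ((mult F t : ℝ) / t) ^ 2) V ∧ Tendsto (meanSquare δ) atTop (𝓝 V)

/-- For every real `t` the means of `log y · δ(y) y^(-it)` tend to `-i m_t/t` (`0` for `t = 0`). -/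
def ReadsZeros (F : ℂ → ℂ) (δ : ℝ → ℝ) : Prop :=
  ∀ t : ℝ, Tendsto (coefficient δ t) atTop (𝓝 (-((mult F t : ℂ) * I / t)))

/-! ### translation -/

open Pool.Agent.Results.MP_ae0bd0_nt.MeanProduct (NN data log_product dev_eq zeros_shift)
open Pool.Agent.Results.MP_1a91b9_nt.MeanSquareLeading (lim_shift squares_eq)
open Pool.Agent.TH942.ES (alV)
open Pool.Agent.TH270.MS (DvR)

theorem lead_iff (F : ℂ → ℂ) (ρ A : ℝ) : LeadingRH F ρ A ↔ ((∀ s : ℂ, 0 < s.re → F (1 + s) ≠ 0) ∧
    ∃ m : ℤ, ρ = m ∧ Tendsto (fun s => F (1 + s) / s ^ m) (𝓝[≠] 0) (𝓝 (A : ℂ))) := by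
  rw [zeros_shift]
  simp only [lim_shift]
  exact and_comm

theorem dev_eqP (a b : 𝓞 K) {ρ A c y : ℝ} (hA : 0 < A) (hy : Real.exp 1 ≤ y) :
    dev a b ρ A c y = Pool.Agent.Q5.BP.DvP (NN a b) (alV a b) ρ A c y := by
  have hl : 0 < Real.log y := by linarith [Pool.Agent.TH270.MS.one_le_log hy]
  have h6 : 0 < Real.exp Real.eulerMascheroniConstant * Real.log y :=
    mul_pos (Real.exp_pos _) hl
  have h7 := Real.rpow_pos_of_pos h6 ρ
  have h8 : 0 < product a b y := by
    unfold product
    refine finprod_mem_induction (fun x : ℝ => 0 < x) one_pos (fun x y hx hy => mul_pos hx hy) ?_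
    intro v _
    have h9 : (2 : ℝ) ≤ norm v := by exact_mod_cast Pool.Agent.H921R2.TatePole.two_le_nm v
    positivity
  unfold dev Pool.Agent.Q5.BP.DvP
  rw [Real.log_div (by positivity) h7.ne', Real.log_mul (by positivity) h8.ne',
    Real.log_mul hA.ne' (Real.exp_pos c).ne', Real.log_exp, log_product, Real.log_rpow h6,
    Real.log_mul (Real.exp_pos _).ne' hl.ne', Real.log_exp]
  ring

/-- **The strong conjecture of Birch and Swinnerton-Dyer in exact mean square.** -/
theorem result (a b : 𝓞 K) (_hΔ : 4 * a ^ 3 + 27 * b ^ 2 ≠ 0) (F : ℂ → ℂ) (hF : Tempered a b F)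
    (ρ A : ℝ) (hA : 0 < A) :
    (List.TFAE [LeadingRH F ρ A, BoundedMeanSquare (devStar a b ρ A),
      SquareLaw F (devStar a b ρ A)] ∧ (LeadingRH F ρ A → ReadsZeros F (devStar a b ρ A))) ∧
    ∀ c : ℝ, Tendsto (fun y : ℝ => Real.log y * (squares a b y - c)) atTop (𝓝 0) →
      List.TFAE [LeadingRH F ρ A, BoundedMeanSquare (dev a b ρ A c),
        SquareLaw F (dev a b ρ A c)] ∧ (LeadingRH F ρ A → ReadsZeros F (dev a b ρ A c)) := by
  obtain ⟨G₀, k, κ, η, C, H⟩ := data hF
  have hm : ∀ t : ℝ, Pool.Agent.Q5.BP.mu (fun s => F (1 + s)) t = mult F t :=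
    Pool.Agent.Q5.BP.mu_shift F 1
  refine ⟨?_, fun c hc => ?_⟩
  · exact Pool.Agent.Q5.BP.pack H ρ hA (lead_iff F ρ A) hm fun y hy => dev_eq a b hA hy
  · exact Pool.Agent.Q5.BP.packP H ρ hA (lead_iff F ρ A) hm
      (by rw [← squares_eq]; exact hc) fun y hy => dev_eqP a b hA hy

end Pool.Agent.Results.MP_9ab903_nt.ExactMeanSquare
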