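import Pool.Agent.W187.UR.NF
import Pool.Agent.TH942.Ner

/-!
# The full Birch and Swinnerton-Dyer conjecture over number fields as a statement on counting points

Let `K` be a number field and `E : y² = x³ + a x + b` an elliptic curve over `K`.  Let `F` be a
continuation of the Hasse-Weil `L`-series of `E/K` (Mathlib's `WeierstrassCurve.LSeries`, all Euler
factors from minimal models) to a neighbourhood of the real segment `[1, 2]`, as a meromorphic
function.  No functional equation and no hypothesis on the zeros or poles of `F` is made.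

Let `r` be the rank of `E(K)`, `Reg` the regulator, `t` the order of the torsion subgroup.  The conjecture of
Birch and Swinnerton-Dyer says that `F` has order `r` at `s = 1` with leading coefficient
`A · Reg / t²`, where `A` is the product of the periods, the Tamagawa numbers and the order of the
Tate-Shafarevich group, divided by `|d_K|^(1/2)`.  Let

* `N(T)` be the number of points of `E(K)` of logarithmic height (of the `x`-coordinate, relative to
  `K`) at most `T`, with the point at infinity;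
* `D(T) = exp (∑_{v, k ≥ 1} - (α_v^k + β_v^k) w(k log q_v / T) / (k q_v^k))` the product of the local
  densities `#E(k_v)/q_v` (for good `v` the factor `(1 - α_v/q_v)(1 - β_v/q_v)`) with the smooth cut-off
  `w(u) = e^{iγu} / Γ(1 + u)`, at the same scale `T`; here `γ > π/2` is a fixed number.

It is shown that for every `A ≠ 0`

`ord_{s=1} F = r` and the leading coefficient is `A · Reg / t²`  if and only if
`D(T) / N(T)² → e^{-rΛ} / (A V_r²)`  (`T → ∞`),

with `V_r` the volume of the `r`-dimensional unit ball and `Λ = ∫_0^∞ (e^{-u} - w(u)) du/u`.  The regulator,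
the torsion subgroup and even the choice of a basis have disappeared: the full conjecture says that the
SQUARE of the number of points of height `≤ T` is asymptotic to the product of the local densities up
to `T`, times an explicit constant multiple of `Ω ∏ c_v #Ш / |d_K|^(1/2)`.  The rank part of the conjecture
is equivalent to `|D(T)| ≍ N(T)²`.

Moreover `log D(T) = m (log T - Λ) - log |l| + π i e + O(1/T)` for all curves, `m` the order, `l` the
leading coefficient of `F` at `1` and `e` the number of real zeros `> 1` minus the number of real poles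
`> 1` of `F`: the imaginary part counts the real zeros.

The analytic part is `Pool.Agent.W187.UR.NF`, the theorem of Mordell, Weil and Néron with the exact
constant is `Pool.Agent.TH942.Ner`.
-/

set_option autoImplicit false

namespace Pool.Agent.Results.MP_9ab903_nt.CountingForm

open Filter Topology Asymptotics Set IsDedekindDomain NumberField Classical

variable {K : Type} [Field K] [NumberField K]

/-- The curve `E : y² = x³ + a x + b`. -/
def curve (a b : K) : WeierstrassCurve K := { a₁ := 0, a₂ := 0, a₃ := 0, a₄ := a, a₆ := b }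

/-- The group `E(K)`. -/
abbrev Points (a b : K) : Type := (curve a b).toAffine.Point

/-- The logarithmic height `h(x(P))` relative to `K`, that is
`∑_v [K_v : ℚ_v] log max (1, |x|_v)` for `P = (x, y)` and `0` for the point at infinity. -/
noncomputable def naiveHeight {a b : K} (P : Points a b) : ℝ := Height.logHeight P.xRep

/-- `N(T)`: the number of the points `P ∈ E(K)` with `h(x(P)) ≤ T`, with the point at infinity. -/
noncomputable def count (a b : K) (T : ℝ) : ℕ := Nat.card {P : Points a b // naiveHeight P ≤ T}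

/-- The canonical height `lim h(x(2^k P)) / 4^k`. -/
noncomputable def canonicalHeight {a b : K} (P : Points a b) : ℝ :=
  limUnder atTop fun k : ℕ => naiveHeight ((2 ^ k : ℕ) • P) / 4 ^ k

/-- The canonical height pairing, `⟨P, P⟩ = lim h(x(2^k P)) / 4^k`. -/
noncomputable def pairing {a b : K} (P Q : Points a b) : ℝ :=
  (canonicalHeight (P + Q) - canonicalHeight P - canonicalHeight Q) / 2

/-- `g` is a basis of `E(K)` modulo torsion. -/
def IsBasis {a b : K} {r : ℕ} (g : Fin r → Points a b) : Prop :=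
  ∀ P : Points a b, ∃! n : Fin r → ℤ, IsOfFinAddOrder (P - ∑ i, n i • g i)

/-- The regulator `det (⟨g_i, g_j⟩)`. -/
noncomputable def regulator {a b : K} {r : ℕ} (g : Fin r → Points a b) : ℝ :=
  (Matrix.of fun i j => pairing (g i) (g j)).det

/-- The number of the elements of finite order of `E(K)`. -/
noncomputable def torsionOrder (a b : K) : ℕ := Nat.card {t : Points a b // IsOfFinAddOrder t}

/-- The volume of the unit ball of `ℝ^r`. -/
noncomputable def ballVolume (r : ℕ) : ℝ := √Real.pi ^ r / Real.Gamma (r / 2 + 1)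

/-- A (meromorphic) continuation `F` of the `L`-series of `E/K` from `Re s > 2` along the real axis to
`s = 1`: it is meromorphic at every real point of `[1, 2]`. -/
def IsContinuation (E : WeierstrassCurve K) (F : ℂ → ℂ) : Prop :=
  (∀ x : ℝ, 1 ≤ x → x ≤ 2 → MeromorphicAt F (x : ℂ)) ∧ ∀ s : ℂ, 2 < s.re → F s = E.LSeries s

/-- `a_v = q_v + 1 - #Ẽ(k_v)` if the reduction at `v` is good (a minimal model at `v`), and `1`, `-1`, `0` if it
is split multiplicative, non-split multiplicative, additive. -/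
noncomputable def trace (E : WeierstrassCurve K) (v : HeightOneSpectrum (𝓞 K)) : ℤ :=
  if ((E.baseChange (v.adicCompletion K)).minimal (v.adicCompletionIntegers K)).HasGoodReduction
      (v.adicCompletionIntegers K) then
    (Nat.card (IsLocalRing.ResidueField (v.adicCompletionIntegers K)) : ℤ) + 1 -
      (Nat.card (((E.baseChange (v.adicCompletion K)).minimal (v.adicCompletionIntegers K)).reduction
        (v.adicCompletionIntegers K)).toAffine.Point)
  else if ((E.baseChange (v.adicCompletion K)).minimal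
      (v.adicCompletionIntegers K)).HasSplitMultiplicativeReduction
        (v.adicCompletionIntegers K) then 1
  else if ((E.baseChange (v.adicCompletion K)).minimal
      (v.adicCompletionIntegers K)).HasMultiplicativeReduction (v.adicCompletionIntegers K) then -1
  else 0

/-- `q_v = #k_v` if the reduction is good and `0` otherwise. -/
noncomputable def norm (E : WeierstrassCurve K) (v : HeightOneSpectrum (𝓞 K)) : ℤ :=
  if ((E.baseChange (v.adicCompletion K)).minimal (v.adicCompletionIntegers K)).HasGoodReduction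
      (v.adicCompletionIntegers K) then
    (Nat.card (IsLocalRing.ResidueField (v.adicCompletionIntegers K)) : ℤ) else 0

/-- `α^n + β^n` for the roots `α`, `β` of `X² - t X + q`. -/
def powerSum (t q : ℤ) : ℕ → ℤ
  | 0 => 2
  | 1 => t
  | n + 2 => t * powerSum t q (n + 1) - q * powerSum t q n

/-- The term of `log D(T)` at the place `v = x.1` and the exponent `k = x.2 + 1`:
`- (α_v^k + β_v^k) e^{iγu} / (k q_v^k Γ(1 + u))` with `u = k log q_v / T`. -/
noncomputable def term (E : WeierstrassCurve K) (γ T : ℝ) (x : HeightOneSpectrum (𝓞 K) × ℕ) : ℂ :=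
  ((-(powerSum (trace E x.1) (norm E x.1) (x.2 + 1) : ℤ) /
    ((x.2 + 1) * ((Ideal.absNorm x.1.asIdeal : ℕ) : ℝ) ^ (x.2 + 1) *
      Real.Gamma (1 + (x.2 + 1) * Real.log ((Ideal.absNorm x.1.asIdeal : ℕ) : ℝ) / T)) : ℝ) : ℂ) *
    Complex.exp
      ((γ * ((x.2 + 1) * Real.log ((Ideal.absNorm x.1.asIdeal : ℕ) : ℝ) / T) : ℝ) * Complex.I)

/-- `log D(T)` -/
noncomputable def logDensity (E : WeierstrassCurve K) (γ T : ℝ) : ℂ := ∑' x, term E γ T x

/-- `D(T)`, the smoothed product of the local densities. -/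
noncomputable def density (E : WeierstrassCurve K) (γ T : ℝ) : ℂ := Complex.exp (logDensity E γ T)

/-- `Λ = ∫_0^∞ (e^{-u} - e^{iγu} / Γ(1 + u)) du / u` -/
noncomputable def Lam (γ : ℝ) : ℂ := ∫ u in Ioi (0 : ℝ),
  (Complex.exp (-(u : ℂ)) - Complex.exp ((γ * u : ℝ) * Complex.I) * ((Real.Gamma (1 + u))⁻¹ : ℝ)) / u

/-- The number of the real zeros `> 1` minus the number of the real poles `> 1` of `F`, with
multiplicities. -/
noncomputable def realZeros (F : ℂ → ℂ) : ℤ :=
  ∑ᶠ σ ∈ Ioi (1 : ℝ), (meromorphicOrderAt F (σ : ℂ)).untop₀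

theorem powerSum_eq (t q : ℤ) : ∀ n : ℕ, powerSum t q n = W189.LC.psum t q n
  | 0 => rfl
  | 1 => rfl
  | n + 2 => by rw [powerSum, W189.LC.psum, powerSum_eq t q (n + 1), powerSum_eq t q n]

theorem term_eq (E : WeierstrassCurve K) (γ T : ℝ) (x : HeightOneSpectrum (𝓞 K) × ℕ) :
    term E γ T x = W187.UR.rTerm E γ T x := by
  unfold term W187.UR.rTerm W189.NF.bsTerm
  rw [powerSum_eq]
  rfl

theorem logDensity_eq (E : WeierstrassCurve K) (γ T : ℝ) :
    logDensity E γ T = W187.UR.rSum E γ T :=
  tsum_congr fun x => term_eq E γ T x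

theorem growth_aux {a b : K} (hab : 4 * a ^ 3 + 27 * b ^ 2 ≠ 0) {r : ℕ}
    {g : Fin r → TH942.SPt a b} (hg : TH942.IsBasisModTors g) : ∃ q : TH942.SPt a b → ℝ,
    (∀ P, Tendsto (fun k : ℕ => TH942.sht ((2 ^ k : ℕ) • P) / 4 ^ k) atTop (𝓝 (q P))) ∧
    0 < (TH942.gram q g).det ∧ 0 < Nat.card {t : TH942.SPt a b // IsOfFinAddOrder t} ∧
    Tendsto (fun T : ℝ => (Nat.card {P : TH942.SPt a b // TH942.sht P ≤ T} : ℝ) /
      T ^ ((r : ℝ) / 2)) atTop (𝓝 (Nat.card {t : TH942.SPt a b // IsOfFinAddOrder t} *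
        TH942.ballVol r / √(TH942.gram q g).det)) := by
  obtain ⟨q, C, h1, h2, h3, h4, h5⟩ := TH942.neron hab
  obtain ⟨h6, h7⟩ := h5 (Fin r) g hg
  refine ⟨q, h4, h6, ?_, ?_⟩
  · have h8 : Finite {t : TH942.SPt a b // IsOfFinAddOrder t} := by
      have : {t : TH942.SPt a b | IsOfFinAddOrder t} ⊆ {P | TH942.sht P ≤ C} := by
        intro t ht
        have h9 := TH942.q_comb q h2 g t ht 0
        simp only [Pi.zero_apply, zero_smul, Finset.sum_const_zero, zero_add, Int.cast_zero,
          zero_mul] at h9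
        have h10 := abs_le.1 (h3 t)
        simp only [Set.mem_ofPred_eq]
        linarith
      exact ((TH942.sfinite_ht C).subset this).to_subtype
    have : Nonempty {t : TH942.SPt a b // IsOfFinAddOrder t} := ⟨⟨0, IsOfFinAddOrder.zero⟩⟩
    exact Nat.card_pos
  · rw [Fintype.card_fin] at h7
    exact h7

/-- The theorem of Mordell, Weil and Néron with the constant. -/
theorem count_growth {a b : K} (hab : 4 * a ^ 3 + 27 * b ^ 2 ≠ 0) {r : ℕ} {g : Fin r → Points a b}
    (hg : IsBasis g) : 0 < regulator g ∧ 0 < torsionOrder a b ∧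
    Tendsto (fun T : ℝ => (count a b T : ℝ) / T ^ ((r : ℝ) / 2)) atTop
      (𝓝 (torsionOrder a b * ballVolume r / √(regulator g))) := by
  obtain ⟨q, h4, h6, h7, h8⟩ := growth_aux hab (g := g) hg
  have hq : ∀ P : Points a b, canonicalHeight P = q P := fun P => (h4 P).limUnder_eq
  have hreg : regulator g = (TH942.gram q g).det := by
    unfold regulator pairing
    simp only [hq]
    rfl
  rw [hreg]
  exact ⟨h6, h7, h8⟩

theorem zpow_bdd {n : ℤ} {c C : ℝ} (hc : 0 < c)
    (h : ∀ᶠ T : ℝ in atTop, c ≤ T ^ n ∧ T ^ n ≤ C) : n = 0 := by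
  rcases lt_trichotomy n 0 with h5 | h5 | h5
  · exfalso
    have h6 : Tendsto (fun T : ℝ => T ^ n) atTop (𝓝 0) := tendsto_zpow_atTop_zero h5
    have h7 := ge_of_tendsto h6 (h.mono fun T hT => hT.1)
    linarith
  · exact h5
  · exfalso
    have h6 : Tendsto (fun T : ℝ => T ^ n) atTop atTop := by
      obtain ⟨k, hk⟩ := Int.eq_ofNat_of_zero_le h5.le
      rw [hk]
      simp only [zpow_natCast]
      refine tendsto_pow_atTop ?_
      intro h0
      rw [h0] at hk
      rw [hk] at h5
      exact absurd h5 (by simp)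
    obtain ⟨T, h7, h8⟩ := (h.and (h6.eventually_gt_atTop C)).exists
    linarith [h7.2]

/-- **The full conjecture of Birch and Swinnerton-Dyer over number fields in terms of the number of
points of bounded height.** -/
theorem result (a b : K) (hab : 4 * a ^ 3 + 27 * b ^ 2 ≠ 0) (F : ℂ → ℂ)
    (hF : IsContinuation (curve a b) F) :
    (∀ γ T : ℝ, 0 < T → Summable fun x => ‖term (curve a b) γ T x‖) ∧
    (∃ (r : ℕ) (g : Fin r → Points a b), IsBasis g) ∧
    ∃ (m : ℤ) (l : ℝ), meromorphicOrderAt F 1 = m ∧ meromorphicTrailingCoeffAt F 1 = l ∧ l ≠ 0 ∧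
      (∀ γ : ℝ, Real.pi / 2 < γ →
        (fun T : ℝ => logDensity (curve a b) γ T - (m * (Real.log T - Lam γ) - Real.log |l| +
          Real.pi * realZeros F * Complex.I)) =O[atTop] (fun T : ℝ => 1 / T)) ∧
      ∀ (r : ℕ) (g : Fin r → Points a b), IsBasis g → ∀ γ : ℝ, Real.pi / 2 < γ →
        0 < regulator g ∧ 0 < torsionOrder a b ∧
        (m = r ↔ ∃ C : ℝ, ∀ᶠ T : ℝ in atTop,
          (count a b T : ℝ) ^ 2 ≤ C * ‖density (curve a b) γ T‖ ∧
          ‖density (curve a b) γ T‖ ≤ C * (count a b T : ℝ) ^ 2) ∧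
        ∀ A : ℝ, A ≠ 0 →
          ((m = r ∧ l = A * regulator g / (torsionOrder a b : ℝ) ^ 2) ↔
            Tendsto (fun T : ℝ => density (curve a b) γ T / (count a b T : ℂ) ^ 2) atTop
              (𝓝 (Complex.exp (-(r * Lam γ)) / (A * (ballVolume r : ℂ) ^ 2)))) := by
  have hF' : W189.NF.IsCont (curve a b) F := hF
  refine ⟨fun γ T hT => ?_, TH942.exists_basis (TH942.sfg hab), ?_⟩
  · refine (W189.NF.bsTerm_summable (curve a b) hT).congr fun x => ?_
    rw [term_eq, W187.UR.norm_rTerm]
  have hpi : Real.pi / 2 < Real.pi := by linarith [Real.pi_pos]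
  obtain ⟨m, l, hm, hl, hl0, -, -⟩ := W187.UR.nf_rot hF' hpi
  have hrot : ∀ γ : ℝ, Real.pi / 2 < γ →
      (fun T : ℝ => logDensity (curve a b) γ T - (m * (Real.log T - Lam γ) - Real.log |l| +
        Real.pi * realZeros F * Complex.I)) =O[atTop] (fun T : ℝ => 1 / T) ∧
      Tendsto (fun T : ℝ => density (curve a b) γ T / (T : ℂ) ^ m) atTop
        (𝓝 (Complex.exp (-(m * Lam γ)) / l)) := by
    intro γ hγ
    obtain ⟨m', l', hm', hl', -, h1, h2⟩ := W187.UR.nf_rot hF' hγ
    have h3 : m' = m := by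
      rw [hm] at hm'
      exact_mod_cast hm'.symm
    have h4 : l' = l := by
      rw [hl] at hl'
      exact_mod_cast hl'.symm
    subst h3 h4
    refine ⟨?_, ?_⟩
    · refine h1.congr_left fun T => ?_
      rw [logDensity_eq]
      rfl
    · refine h2.congr fun T => ?_
      rw [density, logDensity_eq]
  refine ⟨m, l, hm, hl, hl0, fun γ hγ => (hrot γ hγ).1, fun r g hg γ hγ => ?_⟩
  obtain ⟨hR, ht, hN⟩ := count_growth hab hg
  set R : ℝ := regulator g with hRdef
  set t : ℕ := torsionOrder a b with htdef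
  have htR : (0 : ℝ) < t := by exact_mod_cast ht
  have hV : 0 < ballVolume r := TH942.ballVol_pos r
  set κ : ℝ := t * ballVolume r / √R with hκ
  have hsR : 0 < √R := Real.sqrt_pos.2 hR
  have hκ0 : 0 < κ := by positivity
  have hκ2 : κ ^ 2 = t ^ 2 * ballVolume r ^ 2 / R := by
    rw [hκ, div_pow, mul_pow, Real.sq_sqrt hR.le]
  have hD := (hrot γ hγ).2
  -- the square of the counting function
  have hN2 : Tendsto (fun T : ℝ => (count a b T : ℝ) ^ 2 / T ^ r) atTop (𝓝 (κ ^ 2)) := by
    refine (hN.pow 2).congr' ?_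
    filter_upwards [eventually_gt_atTop 0] with T hT
    rw [div_pow]
    congr 1
    rw [← Real.rpow_natCast, ← Real.rpow_mul hT.le, ← Real.rpow_natCast]
    congr 1
    push_cast
    ring
  have hN2c : Tendsto (fun T : ℝ => (count a b T : ℂ) ^ 2 / (T : ℂ) ^ r) atTop
      (𝓝 ((κ : ℂ) ^ 2)) := by
    have h1 := (Complex.continuous_ofReal.tendsto _).comp hN2
    simpa [Function.comp_def] using h1
  have hκc : (κ : ℂ) ^ 2 ≠ 0 := by
    have : (κ : ℂ) ≠ 0 := by exact_mod_cast hκ0.ne'
    exact pow_ne_zero 2 this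
  have hlc : (l : ℂ) ≠ 0 := by exact_mod_cast hl0
  set c₁ : ℂ := Complex.exp (-(m * Lam γ)) / l / (κ : ℂ) ^ 2 with hc₁
  have hc₁0 : c₁ ≠ 0 := div_ne_zero (div_ne_zero (Complex.exp_ne_zero _) hlc) hκc
  have hNpos : ∀ᶠ T : ℝ in atTop, 0 < (count a b T : ℝ) := by
    have h1 := hN.eventually (eventually_gt_nhds (show 0 < κ from hκ0))
    filter_upwards [h1, eventually_gt_atTop 0] with T h2 h3
    have h4 : 0 < T ^ ((r : ℝ) / 2) := Real.rpow_pos_of_pos h3 _
    by_contra h5
    have h6 : (count a b T : ℝ) = 0 := le_antisymm (not_lt.1 h5) (Nat.cast_nonneg _)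
    rw [h6, zero_div] at h2
    exact lt_irrefl _ h2
  -- the quotient
  have hQ : Tendsto (fun T : ℝ => density (curve a b) γ T / (count a b T : ℂ) ^ 2 /
      (T : ℂ) ^ (m - r)) atTop (𝓝 c₁) := by
    refine (hD.div hN2c hκc).congr' ?_
    filter_upwards [eventually_gt_atTop 0, hNpos] with T hT hn
    have hTc : (T : ℂ) ≠ 0 := by exact_mod_cast hT.ne'
    have hnc : (count a b T : ℂ) ≠ 0 := by
      intro h
      have : (count a b T : ℝ) = 0 := by exact_mod_cast h
      linarith
    have h4 : (T : ℂ) ^ m ≠ 0 := zpow_ne_zero _ hTc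
    rw [zpow_sub₀ hTc, zpow_natCast]
    simp only [Pi.div_apply]
    field_simp
  have hQn : Tendsto (fun T : ℝ => ‖density (curve a b) γ T‖ / (count a b T : ℝ) ^ 2 /
      T ^ (m - r)) atTop (𝓝 ‖c₁‖) := by
    refine hQ.norm.congr' ?_
    filter_upwards [eventually_gt_atTop 0] with T hT
    rw [norm_div, norm_div, norm_pow, norm_zpow, Complex.norm_real, Real.norm_eq_abs,
      abs_of_pos hT, Complex.norm_natCast]
  have hc₁n : 0 < ‖c₁‖ := norm_pos_iff.2 hc₁0
  refine ⟨hR, ht, ⟨?_, ?_⟩, fun A hA => ⟨?_, ?_⟩⟩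
  · -- rank form, first direction
    intro hmr
    subst hmr
    have h1 : Tendsto (fun T : ℝ => ‖density (curve a b) γ T‖ / (count a b T : ℝ) ^ 2) atTop
        (𝓝 ‖c₁‖) := by
      refine hQn.congr fun T => ?_
      rw [sub_self, zpow_zero, div_one]
    have h2 := h1.eventually (eventually_lt_nhds (show ‖c₁‖ < 2 * ‖c₁‖ by linarith))
    have h3 := h1.eventually (eventually_gt_nhds (show ‖c₁‖ / 2 < ‖c₁‖ by linarith))
    refine ⟨max (2 * ‖c₁‖) (2 / ‖c₁‖), ?_⟩
    filter_upwards [h2, h3, hNpos] with T h4 h5 h6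
    have h7 : 0 < (count a b T : ℝ) ^ 2 := by positivity
    rw [div_lt_iff₀ h7] at h4
    rw [lt_div_iff₀ h7] at h5
    have h8 : 0 ≤ ‖density (curve a b) γ T‖ := norm_nonneg _
    constructor
    · calc (count a b T : ℝ) ^ 2 = 2 / ‖c₁‖ * (‖c₁‖ / 2 * (count a b T : ℝ) ^ 2) := by
            field_simp
        _ ≤ 2 / ‖c₁‖ * ‖density (curve a b) γ T‖ := by gcongr
        _ ≤ _ := by gcongr; exact le_max_right _ _
    · calc ‖density (curve a b) γ T‖ ≤ 2 * ‖c₁‖ * (count a b T : ℝ) ^ 2 := h4.le
        _ ≤ _ := by gcongr; exact le_max_left _ _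
  · -- rank form, second direction
    rintro ⟨C, hC⟩
    have hC0 : 0 < C := by
      obtain ⟨T, ⟨h1, -⟩, h2⟩ := (hC.and hNpos).exists
      by_contra h3
      have h4 : C * ‖density (curve a b) γ T‖ ≤ 0 :=
        mul_nonpos_of_nonpos_of_nonneg (not_lt.1 h3) (norm_nonneg _)
      have : 0 < (count a b T : ℝ) ^ 2 := by positivity
      linarith
    have h2 := hQn.eventually (eventually_lt_nhds (show ‖c₁‖ < 2 * ‖c₁‖ by linarith))
    have h3 := hQn.eventually (eventually_gt_nhds (show ‖c₁‖ / 2 < ‖c₁‖ by linarith))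
    have h9 : m - r = 0 := by
      refine zpow_bdd (c := 1 / (C * (2 * ‖c₁‖))) (C := C / (‖c₁‖ / 2)) (by positivity) ?_
      filter_upwards [h2, h3, hNpos, hC, eventually_gt_atTop 0] with T h4 h5 h6 h7 h8
      have h10 : 0 < (count a b T : ℝ) ^ 2 := by positivity
      have h11 : 0 < T ^ (m - (r : ℤ)) := zpow_pos h8 _
      rw [div_lt_iff₀ h11] at h4
      rw [lt_div_iff₀ h11] at h5
      have h12 : ‖density (curve a b) γ T‖ / (count a b T : ℝ) ^ 2 ≤ C := by
        rw [div_le_iff₀ h10]; exact h7.2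
      have h13 : 1 ≤ C * (‖density (curve a b) γ T‖ / (count a b T : ℝ) ^ 2) := by
        rw [← mul_div_assoc, le_div_iff₀ h10, one_mul]
        exact h7.1
      constructor
      · rw [div_le_iff₀ (by positivity)]
        calc (1 : ℝ) ≤ C * (‖density (curve a b) γ T‖ / (count a b T : ℝ) ^ 2) := h13
          _ ≤ C * (2 * ‖c₁‖ * T ^ (m - (r : ℤ))) := by gcongr
          _ = _ := by ring
      · rw [le_div_iff₀ (by positivity)]
        linarith [mul_comm (T ^ (m - (r : ℤ))) (‖c₁‖ / 2)]
    linarith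
  · -- the full form, first direction
    rintro ⟨hmr, hlA⟩
    subst hmr
    have h1 : Tendsto (fun T : ℝ => density (curve a b) γ T / (count a b T : ℂ) ^ 2) atTop
        (𝓝 c₁) := by
      refine hQ.congr fun T => ?_
      rw [sub_self, zpow_zero, div_one]
    refine h1.trans (le_of_eq ?_)
    congr 1
    rw [hc₁, div_div]
    have h2 : (l : ℂ) * (κ : ℂ) ^ 2 = A * (ballVolume r : ℂ) ^ 2 := by
      have h3 : l * κ ^ 2 = A * ballVolume r ^ 2 := by
        rw [hκ2, hlA]
        field_simp
      exact_mod_cast h3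
    rw [h2]
    push_cast
    rfl
  · -- the full form, second direction
    intro h1
    have hAc : (A : ℂ) ≠ 0 := by exact_mod_cast hA
    have hVc : (ballVolume r : ℂ) ^ 2 ≠ 0 := by
      have : (ballVolume r : ℂ) ≠ 0 := by exact_mod_cast hV.ne'
      exact pow_ne_zero 2 this
    set c₀ : ℂ := Complex.exp (-(r * Lam γ)) / (A * (ballVolume r : ℂ) ^ 2) with hc₀
    have hc₀0 : c₀ ≠ 0 := div_ne_zero (Complex.exp_ne_zero _) (mul_ne_zero hAc hVc)
    have hc₀n : 0 < ‖c₀‖ := norm_pos_iff.2 hc₀0
    have h1n : Tendsto (fun T : ℝ => ‖density (curve a b) γ T‖ / (count a b T : ℝ) ^ 2) atTop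
        (𝓝 ‖c₀‖) := by
      refine h1.norm.congr fun T => ?_
      rw [norm_div, norm_pow, Complex.norm_natCast]
    have h2 : Tendsto (fun T : ℝ => T ^ (m - (r : ℤ))) atTop (𝓝 (‖c₀‖ / ‖c₁‖)) := by
      refine (h1n.div hQn hc₁n.ne').congr' ?_
      filter_upwards [eventually_gt_atTop 0, hNpos, h1n.eventually (eventually_gt_nhds hc₀n)]
        with T hT hn hd
      have h11 : 0 < T ^ (m - (r : ℤ)) := zpow_pos hT _
      simp only [Pi.div_apply]
      rw [div_div_eq_mul_div, mul_comm, mul_div_assoc, div_self hd.ne', mul_one]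
    have h3 : m - r = 0 := by
      have h4 : 0 < ‖c₀‖ / ‖c₁‖ := by positivity
      refine zpow_bdd (c := ‖c₀‖ / ‖c₁‖ / 2) (C := 2 * (‖c₀‖ / ‖c₁‖)) (by positivity) ?_
      filter_upwards [h2.eventually (eventually_lt_nhds (show ‖c₀‖ / ‖c₁‖ < 2 * (‖c₀‖ / ‖c₁‖) by
        linarith)), h2.eventually (eventually_gt_nhds (show ‖c₀‖ / ‖c₁‖ / 2 < ‖c₀‖ / ‖c₁‖ by
        linarith))] with T h5 h6
      exact ⟨h6.le, h5.le⟩
    have hmr : m = (r : ℤ) := by linarith
    subst hmr
    refine ⟨rfl, ?_⟩
    have h4 : Tendsto (fun T : ℝ => density (curve a b) γ T / (count a b T : ℂ) ^ 2) atTop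
        (𝓝 c₁) := by
      refine hQ.congr fun T => ?_
      rw [sub_self, zpow_zero, div_one]
    have h5 : c₀ = c₁ := tendsto_nhds_unique h1 h4
    rw [hc₀, hc₁, div_div] at h5
    have h6 := Complex.exp_ne_zero (-((r : ℂ) * Lam γ))
    have h7 : (((r : ℤ) : ℂ)) = (r : ℂ) := by push_cast; rfl
    rw [h7, div_eq_div_iff (mul_ne_zero hAc hVc) (mul_ne_zero hlc hκc)] at h5
    have h8 := mul_left_cancel₀ h6 h5
    have h9 : l * κ ^ 2 = A * ballVolume r ^ 2 := by exact_mod_cast h8
    rw [hκ2] at h9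
    have hV2 : ballVolume r ^ 2 ≠ 0 := by positivity
    rw [eq_div_iff (by positivity)]
    have h10 : l * (t ^ 2 * ballVolume r ^ 2 / R) = A * ballVolume r ^ 2 := h9
    field_simp at h10
    linarith

end Pool.Agent.Results.MP_9ab903_nt.CountingForm
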