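import Pool.Agent.W189.NF.Main

/-!
# The leading-term formula over number fields from the real Mittag-Leffler smoothing

Let `K` be a number field, `E` a Weierstrass curve over `K` with Hasse-Weil `L`-series `L(E,s) = ∏_v
(1 - a_v q_v^(-s) + e_v q_v^(-2s))⁻¹` (`q_v = Nv`, all finite places, the bad ones included), and let
`α_v, β_v` be the roots of `X² - a_v X + e_v`. The product of Birch and Swinnerton-Dyer
`∏_{Nv ≤ Y} #E(k_v)/q_v` with its sharp cut-off converges to what the conjecture predicts only if
the Riemann hypothesis holds (Goldfeld 1982). Here the sharp cut-off is replaced by the positive smooth weight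
`1/Γ(1 + k log q_v / T)`:

`S(T) = - ∑_v ∑_{k ≥ 1} (α_v^k + β_v^k) / (k q_v^k Γ(1 + k log q_v / T))`,

an absolutely convergent series for every `T > 0` (`log ∏ (1 - α_v/q_v)(1 - β_v/q_v)`, smoothed at `Nv ≈ e^T`).
Let `F` be any function which continues `L(E, s)` and is meromorphic at the points of `[1, 2]`.

* If `F` has no zeros and no poles on the real half line `(1, ∞)`, then, with `m` the order and `l > 0` the leading
  coefficient of `F` at `1`, `S(T) = m (log T - κ) - log l + O(1/T)`, `κ = ∫_0^∞ (e^(-t) - 1/Γ(1+t)) dt/t`.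
* Otherwise, with `β > 1` the largest real zero or pole and `m ≠ 0` its order,
  `S(T) ∼ m ∫_0^∞ (e^{(β-1)Tu} - 1)/(u Γ(1+u)) du` and `|S(T)| ≥ exp (exp (yT))` for `y < β - 1` and large `T`.
* So for every `r` (the rank) and `B > 0` (the right hand side of the leading-term formula) the
  following are equivalent: (1) `F` has no real zeros or poles `> 1`, order `r` and leading coefficient `B` at `1`;
  (2) `S(T) - r log T → - r κ - log B`; (3) this holds along ONE sequence `T_n → ∞`.

No hypothesis on non-real zeros occurs, and nothing is assumed on `F` away from the segment `[1, 2]`.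
-/

set_option autoImplicit false

namespace Pool.Agent.Results.MP_9ab903_nt.RealSmoothing

open IsDedekindDomain NumberField Filter Topology Set Pool.Agent.W189.NF

variable {K : Type} [Field K] [NumberField K]

/-- `F` continues the `L`-series of `E` (`Re s > 2`) and is meromorphic at every point of `[1, 2]`. -/
def IsContinuation (E : WeierstrassCurve K) (F : ℂ → ℂ) : Prop :=
  (∀ x : ℝ, 1 ≤ x → x ≤ 2 → MeromorphicAt F (x : ℂ)) ∧ ∀ s : ℂ, 2 < s.re → F s = E.LSeries s

/-- `q_v` -/
noncomputable def norm (v : HeightOneSpectrum (𝓞 K)) : ℕ := Ideal.absNorm v.asIdeal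

/-- `α^k + β^k` for the roots `α, β` of `X² - a X + e` -/
def powerSum (a e : ℤ) : ℕ → ℤ
  | 0 => 2
  | 1 => a
  | k + 2 => a * powerSum a e (k + 1) - e * powerSum a e k

/-- the term `- (α_v^k + β_v^k) / (k q_v^k Γ(1 + k log q_v / T))`, `x = (v, k - 1)`; `aV E v = a_v` is
`q_v + 1 - #E(k_v)` for good reduction (minimal model at `v`), `1`, `-1`, `0` for split multiplicative, nonsplit
multiplicative, additive reduction; `eV E v = e_v` is `q_v` for good reduction and `0` otherwise -/
noncomputable def term (E : WeierstrassCurve K) (T : ℝ) (x : HeightOneSpectrum (𝓞 K) × ℕ) : ℝ :=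
  -(powerSum (aV E x.1) (eV E x.1) (x.2 + 1) : ℤ) /
    ((x.2 + 1) * (norm x.1 : ℝ) ^ (x.2 + 1) *
      Real.Gamma (1 + (x.2 + 1) * Real.log (norm x.1 : ℝ) / T))

/-- the smoothed logarithm `S(T)` of the Birch and Swinnerton-Dyer product -/
noncomputable def S (E : WeierstrassCurve K) (T : ℝ) : ℝ := ∑' x, term E T x

/-- the constant `κ = ∫_0^∞ (e^{-t} - 1/Γ(1+t)) dt/t` -/
noncomputable def kappa : ℝ := ∫ t in Ioi (0 : ℝ), (Real.exp (-t) - (Real.Gamma (1 + t))⁻¹) / t

/-- `grow y = ∫_0^∞ (e^{y u} - 1) / (u Γ(1 + u)) du` -/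
noncomputable def grow (y : ℝ) : ℝ :=
  ∫ u in Ioi (0 : ℝ), (Real.exp (y * u) - 1) / (u * Real.Gamma (1 + u))

theorem powerSum_eq (a e : ℤ) (n : ℕ) : powerSum a e n = Pool.Agent.W189.LC.psum a e n := by
  induction n using Nat.twoStepInduction with
  | zero => simp [powerSum, Pool.Agent.W189.LC.psum]
  | one => simp [powerSum, Pool.Agent.W189.LC.psum]
  | more n ih1 ih2 =>
    simp only [powerSum, Pool.Agent.W189.LC.psum]
    rw [ih1, ih2]

theorem term_eq (E : WeierstrassCurve K) (T : ℝ) (x : HeightOneSpectrum (𝓞 K) × ℕ) :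
    term E T x = bsTerm E T x := by
  unfold term bsTerm norm
  rw [powerSum_eq]

theorem S_eq (E : WeierstrassCurve K) : S E = bsSum E := by
  funext T
  unfold S bsSum
  exact tsum_congr fun x => term_eq E T x

/-- **The leading term of `L(E, s)` at `s = 1` and the real Mittag-Leffler smoothing of the product of
Birch and Swinnerton-Dyer, for every elliptic curve over every number field.** -/
theorem result (E : WeierstrassCurve K) (F : ℂ → ℂ) (hF : IsContinuation E F) :
    (∀ T : ℝ, 0 < T → Summable fun x => |term E T x|) ∧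
    ((∀ σ : ℝ, 1 < σ → meromorphicOrderAt F (σ : ℂ) = 0) → ∃ (m : ℤ) (l : ℝ),
      meromorphicOrderAt F 1 = m ∧ meromorphicTrailingCoeffAt F 1 = l ∧ 0 < l ∧
      (fun T : ℝ => S E T - (m * (Real.log T - kappa) - Real.log l)) =O[atTop]
        fun T : ℝ => 1 / T) ∧
    ((∃ σ : ℝ, 1 < σ ∧ meromorphicOrderAt F (σ : ℂ) ≠ 0) → ∃ (β : ℝ) (m : ℤ), 1 < β ∧ m ≠ 0 ∧
      meromorphicOrderAt F (β : ℂ) = m ∧
      (∀ σ : ℝ, β < σ → meromorphicOrderAt F (σ : ℂ) = 0) ∧
      Tendsto (fun T : ℝ => S E T / grow ((β - 1) * T)) atTop (𝓝 m) ∧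
      ∀ y < β - 1, ∀ᶠ T : ℝ in atTop, Real.exp (Real.exp (y * T)) ≤ |S E T|) ∧
    ∀ (r : ℕ) (B : ℝ), 0 < B → List.TFAE [
      (∀ σ : ℝ, 1 < σ → meromorphicOrderAt F (σ : ℂ) = 0) ∧
        meromorphicOrderAt F 1 = ((r : ℤ) : WithTop ℤ) ∧ meromorphicTrailingCoeffAt F 1 = B,
      Tendsto (fun T : ℝ => S E T - r * Real.log T) atTop (𝓝 (-(r * kappa) - Real.log B)),
      ∃ T : ℕ → ℝ, Tendsto T atTop atTop ∧
        Tendsto (fun n => S E (T n) - r * Real.log (T n)) atTop (𝓝 (-(r * kappa) - Real.log B))] := by
  have hF' : IsCont E F := hF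
  obtain ⟨h1, h2, h3, h4⟩ := nf_main hF'
  rw [S_eq]
  refine ⟨fun T hT => ?_, h2, h3, fun r B hB => ?_⟩
  · refine (h1 T hT).congr fun x => ?_
    rw [term_eq]
  tfae_have 1 ↔ 2 := h4 r B hB
  tfae_have 2 → 3 := fun h =>
    ⟨fun n => n, tendsto_natCast_atTop_atTop, h.comp tendsto_natCast_atTop_atTop⟩
  tfae_have 3 → 1 := by
    rintro ⟨T, hT, h⟩
    by_cases hz : ∀ σ : ℝ, 1 < σ → meromorphicOrderAt F (σ : ℂ) = 0
    · obtain ⟨m, l, hm, hl, hl0, hO⟩ := h2 hz
      have e1 : Tendsto (fun T : ℝ => bsSum E T - (m * (Real.log T - kappa) - Real.log l)) atTop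
          (𝓝 0) := hO.trans_tendsto (tendsto_const_nhds.div_atTop tendsto_id)
      have e2 := e1.comp hT
      have e3 := h.sub e2
      have e4 : Tendsto (fun n => ((m : ℝ) - r) * Real.log (T n)) atTop
          (𝓝 (-(r * kappa) - Real.log B + m * kappa + Real.log l)) := by
        have e5 := e3.add_const (m * kappa + Real.log l)
        have e6 : (fun n => bsSum E (T n) - r * Real.log (T n) -
            (((fun T : ℝ => bsSum E T - (m * (Real.log T - kappa) - Real.log l)) ∘ T) n) +
            (m * kappa + Real.log l)) = fun n => ((m : ℝ) - r) * Real.log (T n) := by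
          funext n
          simp only [Function.comp_apply]
          ring
        rw [e6] at e5
        refine e5.trans (le_of_eq ?_)
        congr 1
        ring
      have hlog : Tendsto (fun n => Real.log (T n)) atTop atTop := Real.tendsto_log_atTop.comp hT
      have hmr : (m : ℝ) = r := by
        by_contra hne
        rcases lt_or_gt_of_ne (sub_ne_zero.2 hne) with h5 | h5
        · exact not_tendsto_nhds_of_tendsto_atBot (hlog.const_mul_atTop_of_neg h5) _ e4
        · exact not_tendsto_nhds_of_tendsto_atTop (hlog.const_mul_atTop h5) _ e4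
      have e7 : -(r * kappa) - Real.log B + m * kappa + Real.log l = 0 := by
        have : (fun n => ((m : ℝ) - r) * Real.log (T n)) = fun _ => (0 : ℝ) := by
          funext n
          rw [hmr]
          ring
        rw [this] at e4
        exact tendsto_nhds_unique e4 tendsto_const_nhds
      have e8 : Real.log l = Real.log B := by
        rw [hmr] at e7
        linarith
      have e9 : l = B := Real.log_injOn_pos hl0 hB e8
      refine ⟨hz, ?_, ?_⟩
      · rw [hm]
        have : m = (r : ℤ) := by exact_mod_cast hmr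
        rw [this]
      · rw [hl, e9]
    · exfalso
      push Not at hz
      obtain ⟨β, m, hβ, -, -, -, -, hg⟩ := h3 hz
      have e1 := hg ((β - 1) / 2) (by linarith)
      have e2 := hT.eventually e1
      have e3 := h.abs
      have e4 : ∀ᶠ n in atTop, |bsSum E (T n) - r * Real.log (T n)| ≤
          |-(r * kappa) - Real.log B| + 1 :=
        (e3.eventually (eventually_le_nhds (lt_add_one _)))
      -- `exp (exp (yT)) - r log T → ∞`
      have e5 : Tendsto (fun T : ℝ => Real.exp (Real.exp ((β - 1) / 2 * T)) - r * Real.log T)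
          atTop atTop := by
        have f1 : ∀ᶠ T : ℝ in atTop, ((r : ℝ) + 1) * T ≤ Real.exp (Real.exp ((β - 1) / 2 * T)) := by
          have g1 : Tendsto (fun T : ℝ => (β - 1) / 2 * T) atTop atTop :=
            tendsto_id.const_mul_atTop (by linarith)
          have g2 := (Real.tendsto_exp_div_pow_atTop 1).comp (Real.tendsto_exp_atTop.comp g1)
          have g3 := (Real.tendsto_exp_div_pow_atTop 1).comp g1
          filter_upwards [g2.eventually_ge_atTop (((r : ℝ) + 1) / ((β - 1) / 2)),
            g3.eventually_ge_atTop 1, eventually_gt_atTop 0] with T k1 k2 k3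
          simp only [Function.comp_apply, pow_one] at k1 k2
          have hb : 0 < (β - 1) / 2 := by linarith
          have k4 : 0 < (β - 1) / 2 * T := by positivity
          rw [le_div_iff₀ (Real.exp_pos _)] at k1
          rw [le_div_iff₀ k4, one_mul] at k2
          calc ((r : ℝ) + 1) * T = ((r : ℝ) + 1) / ((β - 1) / 2) * ((β - 1) / 2 * T) := by
                rw [← mul_assoc, div_mul_cancel₀ _ hb.ne']
            _ ≤ ((r : ℝ) + 1) / ((β - 1) / 2) * Real.exp ((β - 1) / 2 * T) := by gcongr
            _ ≤ _ := k1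
        refine tendsto_atTop_mono' _ ?_ tendsto_id
        filter_upwards [f1, eventually_ge_atTop 1] with T k1 k2
        have k3 : Real.log T ≤ T := (Real.log_le_sub_one_of_pos (by linarith)).trans (by linarith)
        have k4 : (r : ℝ) * Real.log T ≤ r * T := by gcongr
        simp only [id]
        linarith
      have e6 := (e5.comp hT).eventually_gt_atTop (|-(r * kappa) - Real.log B| + 1)
      obtain ⟨n, n1, n2, n3, n4⟩ := (e2.and (e4.and (e6.and (hT.eventually_ge_atTop 1)))).exists
      simp only [Function.comp_apply] at n3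
      have n5 : 0 ≤ (r : ℝ) * Real.log (T n) := mul_nonneg (by positivity) (Real.log_nonneg n4)
      have n6 : |bsSum E (T n)| - r * Real.log (T n) ≤ |bsSum E (T n) - r * Real.log (T n)| := by
        have := abs_sub_abs_le_abs_sub (bsSum E (T n)) (r * Real.log (T n))
        rwa [abs_of_nonneg n5] at this
      linarith
  tfae_finish

end Pool.Agent.Results.MP_9ab903_nt.RealSmoothing
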