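import Pool.Agent.Q5.SZ.Gen
import Pool.Agent.Results.MP_9ab903_nt.ExactMeanSquare

/-!
# The strong conjecture of Birch and Swinnerton-Dyer, the Riemann hypothesis and the simplicity of the zeros over
number fields as one sharp inequality

Let `K` be a number field, `E : y² = x³ + a x + b` an elliptic curve with `a, b ∈ 𝓞_K`, and let `F` be a continuation
of the `L`-series of `E/K` (product over the primes `v ∤ 6Δ`) to a half plane `Re s > 1 - η`, analytic except
perhaps for a pole at `s = 1`, of polynomial growth. Let `Λ` be a completed function of `F`: `Λ` is entire of order at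
most `3/2`, `Λ(2 - s) = w Λ(s)`, and `Λ = γ F` with a function `γ` which is analytic without zeros for `Re s ≥ 1`
(the product of the Gamma factors, of the power of the conductor and of the remaining Euler factors). Let
`P(y) = ∏_{Nv ≤ y} #E(k_v)/Nv` be the original product of Birch and Swinnerton-Dyer, `P*(y)` the product with the
prime powers, both with the SHARP cut-off, and for real `ρ` and `A > 0` let
`δ*(y) = log (A P*(y) / (e^γ log y)^ρ)`. Let `r = ord_{s=1} Λ` and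

`c_Λ = 2 Λ^(r+2)(1) / ((r+1) (r+2) Λ^(r)(1))`.

Then:

* `limsup (log Y)⁻¹ ∫_e^Y (log y · δ*(y))² dy/y ≤ c_Λ` IF AND ONLY IF `ρ` is an integer, `F(s)/(s - 1)^ρ → A`, `F` has
  no zeros with `Re s > 1`, and all zeros of `Λ` except perhaps `s = 1` are simple;
* the inequality `limsup ≥ c_Λ` always holds;
* if `F(s)/(s - 1)^ρ → A` and `F` has no zeros with `Re s > 1`, then the limit exists and is equal to
  `c_Λ + ∑_{t ≠ 0} m_t (m_t - 1)/t²`, where `m_t` is the order of `Λ` at `1 + it`.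

The same holds for the product `P` of the numbers of points, with `δ(y) = log (A e^c P(y) / (e^γ log y)^ρ)`, if
`log y · (∑_{√y < Nv ≤ y} (a_v² - 2 Nv)/(2 Nv²) - c) → 0`. So for an `L`-function with a functional equation the
leading-term formula, the Riemann hypothesis and the simplicity of the zeros together mean that the error in the
formula `P*(y) ≈ (e^γ log y)^ρ / A` is as small as it can possibly be in square mean; its minimal size is explicit, and
the excess measures the multiplicities.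

Proof. The mean square is `∑ m_t²/t²` (`ExactMeanSquare` of this problem); by Hadamard's factorisation and the
functional equation `∑ m_t/t²` is the second logarithmic derivative of `Λ(s)/(s-1)^r` at `s = 1`
(`Pool.Agent.Q5.SZ`).
-/

set_option autoImplicit false

namespace Pool.Agent.Results.MP_9ab903_nt.SimpleZeros

open Filter Topology Set Complex NumberField
open Pool.Agent.Results.MP_ae0bd0_nt.MeanProduct (Tempered)
open Pool.Agent.Results.MP_1a91b9_nt.MeanSquareLeading (LeadingRH devStar dev squares)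
open Pool.Agent.Results.MP_9ab903_nt.ExactMeanSquare (mult meanSquare BoundedMeanSquare SquareLaw)

variable {K : Type} [Field K] [NumberField K]

/-- `Λ` is a completed function of `F`: it is entire, of order at most `3/2`, satisfies `Λ(2 - s) = w Λ(s)`, and is
equal to `γ F` on a half plane `Re s > 1 - η` (except perhaps at `s = 1`), where `γ` is analytic without zeros for
`Re s ≥ 1`. -/
structure Completed (F Λ : ℂ → ℂ) : Prop where
  entire : Differentiable ℂ Λ
  growth : ∃ C : ℝ, ∀ s : ℂ, ‖Λ s‖ ≤ Real.exp (C * (1 + ‖s‖) ^ (3 / 2 : ℝ))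
  functional : ∃ w : ℂ, ∀ s : ℂ, Λ (2 - s) = w * Λ s
  factor : ∃ γ : ℂ → ℂ, (∀ s : ℂ, 1 ≤ s.re → AnalyticAt ℂ γ s ∧ γ s ≠ 0) ∧
    ∃ η : ℝ, 0 < η ∧ ∀ s : ℂ, 1 - η < s.re → s ≠ 1 → Λ s = γ s * F s

/-- All zeros of `Λ` except perhaps `s = 1` are simple. -/
def Simple (Λ : ℂ → ℂ) : Prop := ∀ s : ℂ, s ≠ 1 → Λ s = 0 → deriv Λ s ≠ 0

/-- The order of `Λ` at `s = 1`. -/
noncomputable def ord (Λ : ℂ → ℂ) : ℕ := (analyticOrderAt Λ 1).toNat

/-- `c_Λ = 2 Λ^(r+2)(1) / ((r+1) (r+2) Λ^(r)(1))`, `r` the order of `Λ` at `s = 1`. -/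
noncomputable def cL (Λ : ℂ → ℂ) : ℝ :=
  (2 * iteratedDeriv (ord Λ + 2) Λ 1 / ((ord Λ + 1) * (ord Λ + 2) * iteratedDeriv (ord Λ) Λ 1)).re

/-- `limsup S ≤ c`. -/
def AtMost (S : ℝ → ℝ) (c : ℝ) : Prop := ∀ ε : ℝ, 0 < ε → ∀ᶠ Y : ℝ in atTop, S Y ≤ c + ε

/-- The sharp bound for the mean square of the error term `δ`: `limsup ≤ c_Λ` if and only if `LeadingRH F ρ A` and all
zeros of `Λ` except perhaps `s = 1` are simple; always `limsup ≥ c_Λ`; under `LeadingRH F ρ A` the limit is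
`c_Λ + ∑ m_t (m_t - 1)/t²`. -/
def SharpBound (F Λ : ℂ → ℂ) (ρ A : ℝ) (δ : ℝ → ℝ) : Prop :=
  (AtMost (meanSquare δ) (cL Λ) ↔ LeadingRH F ρ A ∧ Simple Λ) ∧
  (∀ B : ℝ, (∀ᶠ Y : ℝ in atTop, meanSquare δ Y ≤ B) → cL Λ ≤ B) ∧
  (LeadingRH F ρ A → ∃ M : ℝ,
    HasSum (fun t : ℝ => (mult Λ t : ℝ) * ((mult Λ t : ℝ) - 1) / t ^ 2) M ∧ 0 ≤ M ∧
    Tendsto (meanSquare δ) atTop (𝓝 (cL Λ + M)))

/-! ### translation -/

open Pool.Agent.Q5.SZ (CompOf)

theorem comp_of {F Λ : ℂ → ℂ} (h : Completed F Λ) : CompOf F Λ 1 := by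
  obtain ⟨h1, h2, ⟨w, h3⟩, γ, h4, η, h5, h6⟩ := h
  refine ⟨h1, h2, ⟨w, fun s => ?_⟩, γ, h4, η, h5, fun s hs hs1 => h6 s hs (by simpa using hs1)⟩
  rw [Complex.ofReal_one, mul_one]
  exact h3 s

theorem analytic_of {a b : 𝓞 K} {F : ℂ → ℂ} (hF : Tempered a b F) {s : ℂ} (hs : 1 ≤ s.re)
    (hs1 : s ≠ 1) : AnalyticAt ℂ F s := by
  obtain ⟨⟨η, C, k, κ, G, hη, hG, hGF⟩, -⟩ := hF
  have ho : IsOpen {z : ℂ | 1 - η < z.re} := isOpen_lt continuous_const Complex.continuous_re
  have hs' : s ∈ {z : ℂ | 1 - η < z.re} := by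
    show 1 - η < s.re
    linarith
  have hGa : AnalyticAt ℂ G s := by
    have h : DifferentiableOn ℂ G {z : ℂ | 1 - η < z.re} :=
      fun z hz => (hG z hz).1.differentiableWithinAt
    exact h.analyticAt (ho.mem_nhds hs')
  have h1 : AnalyticAt ℂ (fun z : ℂ => ((z - 1) ^ k)⁻¹ * G z) s := by
    refine AnalyticAt.mul (AnalyticAt.inv (by fun_prop) (pow_ne_zero _ (sub_ne_zero.2 hs1))) hGa
  refine h1.congr ?_
  filter_upwards [ho.mem_nhds hs', isOpen_ne.mem_nhds hs1] with z hz hz1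
  rw [hGF z hz hz1]
  have : (z - 1) ^ k ≠ 0 := pow_ne_zero _ (sub_ne_zero.2 hz1)
  field_simp

/-- **The sharp bound for the product of Birch and Swinnerton-Dyer over a number field.** -/
theorem result (a b : 𝓞 K) (hΔ : 4 * a ^ 3 + 27 * b ^ 2 ≠ 0) (F : ℂ → ℂ) (hF : Tempered a b F)
    (Λ : ℂ → ℂ) (hΛ : Completed F Λ) (ρ A : ℝ) (hA : 0 < A) :
    SharpBound F Λ ρ A (devStar a b ρ A) ∧
    ∀ c : ℝ, Tendsto (fun y : ℝ => Real.log y * (squares a b y - c)) atTop (𝓝 0) →
      SharpBound F Λ ρ A (dev a b ρ A c) := by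
  suffices key : ∀ δ : ℝ → ℝ, List.TFAE [LeadingRH F ρ A, BoundedMeanSquare δ, SquareLaw F δ] →
      SharpBound F Λ ρ A δ by
    obtain ⟨⟨h1, -⟩, h2⟩ := Pool.Agent.Results.MP_9ab903_nt.ExactMeanSquare.result a b hΔ F hF ρ A hA
    exact ⟨key _ h1, fun c hc => key _ (h2 c hc).1⟩
  intro δ htf
  have e1 : Pool.Agent.Q5.SZ.cA Λ 1 = cL Λ := by
    unfold Pool.Agent.Q5.SZ.cA cL Pool.Agent.Q5.SZ.ordA ord
    rw [Complex.ofReal_one]
  have e2 : ∀ (G : ℂ → ℂ) (t : ℝ), Pool.Agent.Q5.SZ.multA G 1 t = mult G t := by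
    intro G t
    unfold Pool.Agent.Q5.SZ.multA mult
    rw [Complex.ofReal_one]
  have e3 : Pool.Agent.Q5.SZ.Simp Λ 1 ↔ Simple Λ := by
    unfold Pool.Agent.Q5.SZ.Simp Simple
    rw [Complex.ofReal_one]
  have h := (comp_of hΛ).sharp (P := LeadingRH F ρ A) (S := meanSquare δ)
    (fun s hs hs1 => analytic_of hF hs (by simpa using hs1)) (fun h => h.2)
    (fun h => by
      obtain ⟨V, hV, hT⟩ := (htf.out 0 2).1 h
      refine ⟨V, ?_, hT⟩
      simp only [e2]
      exact hV)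
    (by
      rintro ⟨B, hB⟩
      have h3 : LeadingRH F ρ A ↔ BoundedMeanSquare δ := htf.out 0 1
      refine h3.2 ⟨B, ?_⟩
      filter_upwards [hB, eventually_gt_atTop 1] with X hX hX1
      have hl : 0 < Real.log X := Real.log_pos hX1
      unfold meanSquare at hX
      rwa [div_le_iff₀ hl] at hX)
  rw [e1, e3] at h
  simp only [e2] at h
  exact h

end Pool.Agent.Results.MP_9ab903_nt.SimpleZeros
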